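import Pool.Agent.H88.Mont

open Filter Topology MvPolynomial Pool.Agent.H88.Mont

theorem Pool.Agent.Results.MP_a75ade_an.Counter.result (ν : ℕ) (hν : 2 ≤ ν) :
    ∃ (G : MvPolynomial (Fin 2) ℂ) (f : MvPowerSeries (Fin 2) ℂ) (z : Fin 2 → ℂ),
      G.totalDegree = ν ∧ eval 0 G ≠ 0 ∧ (G : MvPowerSeries (Fin 2) ℂ) * f = 1 ∧ eval z G ≠ 0 ∧
      ∀ S : ℕ → Finset (ℕ × ℕ), (∀ n, IsInterp ν n (S n)) →
        ∃ P Q : ℕ → MvPolynomial (Fin 2) ℂ, (∀ n, IsApprox f ν n (S n) (P n) (Q n)) ∧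
          (∀ n, eval z (Q n) ≠ 0) ∧
          ¬ Tendsto (fun n => eval z (P n) / eval z (Q n)) atTop (𝓝 (1 / eval z G)) := by
  obtain ⟨b, rfl⟩ : ∃ b, ν = b + 1 := ⟨ν - 1, by omega⟩
  have e : eval ![2, 1] (GG b) = -1 := by
    rw [GG, map_sub, ev]
    norm_num
  have g : GG b ≠ 0 := fun h => by simp [h] at e
  refine ⟨GG b, ff b, ![2, 1], GG_deg b, ?_, GG_mul b, by simp [e], fun S hS => ?_⟩
  · rw [GG, map_sub, eval_monomial]
    simp [Finsupp.prod_fintype]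
  have : ∀ n, ∃ P Q, IsApprox (ff b) (b + 1) n (S n) P Q ∧ eval ![2, 1] Q ≠ 0 ∧
      ((∃ t, 0 < t ∧ n = (b + 1) * t) → 0 ≤ (eval ![2, 1] P / eval ![2, 1] Q).re) := fun n => by
    by_cases h : ∃ t, 0 < t ∧ n = (b + 1) * t
    · obtain ⟨t, ht, rfl⟩ := h
      obtain ⟨P, Q, a, c, d⟩ := bad (by omega) ht (hS _)
      exact ⟨P, Q, a, c, fun _ => d⟩
    · exact ⟨1, GG b, ⟨g, by simp, (GG_deg b).le, fun p _ => by simp [GG_mul]⟩, by simp [e],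
        fun h' => (h h').elim⟩
  choose P Q h1 h2 h3 using this
  refine ⟨P, Q, h1, h2, fun h => ?_⟩
  have := ge_of_tendsto (((Complex.continuous_re.tendsto _).comp h).comp
    (tendsto_id.const_mul_atTop' (show 0 < b + 1 by omega)))
    ((eventually_gt_atTop 0).mono fun t ht => h3 _ ⟨t, ht, rfl⟩)
  norm_num [e] at this
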